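import Pool.Agent.Helper61.FN.GoalsC
import Pool.Agent.Helper61.FN.Tools

/-!
# Project FN (MP_06d934_gt): packet FN-C2
-/

set_option autoImplicit false

namespace Pool.Agent.Helper1.FN

open Finset WithZero Pool.Agent.Helper61.FN

/-- monomials in six variables -/
theorem mon6 {k : Type} [Field k] (x : Fin 6 → k) (m : Fin 6 → ℤ) :
    mon x m = x 0 ^ m 0 * x 1 ^ m 1 * x 2 ^ m 2 * x 3 ^ m 3 * x 4 ^ m 4 * x 5 ^ m 5 := by
  simp [mon, Fin.prod_univ_succ]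
  ring

theorem sum20 {k : Type} [Field k] (f : Fin 20 → k) :
    ∑ j, f j = f 0 + f 1 + f 2 + f 3 + f 4 + f 5 + f 6 + f 7 + f 8 + f 9 + f 10 + f 11 + f 12 +
      f 13 + f 14 + f 15 + f 16 + f 17 + f 18 + f 19 := by
  simp [Fin.sum_univ_succ]
  ring

theorem goalC2 (hCR : G_CR) (hCST : G_CST) : G_C2 := by
  intro F k _ _ _ _ _ p q mu ep lam v M ξ h h2 h1 h0 h4 h5 h3
  obtain ⟨hs1, hs2, hs3⟩ := hCST F k p q mu ep lam v M ξ h h2 h1 h0 h4 h5
  obtain ⟨hr, hr'⟩ := hCR F k p q mu ep lam v M ξ h h2 h1 h0 h4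
  have e0 := h.nrm.ld0 0
  have e1 := h.nrm.ld0 1
  have x0 := h.nrm.ne 0
  have x1 := h.nrm.ne 1
  have x2 := h.nrm.ne 2
  have x3 := h.nrm.ne 3
  have hp0 : 0 < p := by have := h.par.p1; linarith
  have hq0 : 0 < q := by have := h.par.q1; linarith
  have hp : (algebraMap F k) p ≠ 0 := am_ne hp0.ne'
  have hq : (algebraMap F k) q ≠ 0 := am_ne hq0.ne'
  have hph : (algebraMap F k) p + (algebraMap F k) ep ≠ 0 := by
    rw [← map_add]
    exact am_ne h.par.ph0.ne'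
  have hch : (algebraMap F k) q + (algebraMap F k) ep ≠ 0 := by
    rw [← map_add]
    exact am_ne h.par.ch0.ne'
  have h20 : (2 : k) ≠ 0 := by
    have := am_ne (k := k) (two_ne_zero : (2 : F) ≠ 0)
    rwa [map_ofNat] at this
  rw [sum20] at e0 e1
  simp only [gr6, mon6] at e0 e1
  simp [mC, cC] at e0 e1
  rw [if_neg (by omega), if_neg (by omega), if_neg (by omega), if_neg (by omega),
    if_neg (by omega), if_pos (by omega), if_pos (by omega)] at e0 e1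
  rw [if_neg (by omega : ¬ v 0 + -v 1 + -v 3 = 0), if_neg (by omega : ¬ -v 0 + v 1 + -v 3 = 0)]
    at e0 e1
  have h6 : (if -v 0 + -v 1 + v 3 = 0 then
      (algebraMap F k) p * (algebraMap F k) q * ((algebraMap F k) q + (algebraMap F k) ep) *
        ((ξ 0)⁻¹ * (ξ 1)⁻¹ * ξ 3) else 0) = 0 := by
    have h7 := congrArg₂ (· + ·) e0 e1
    have h8 : 2 * (if -v 0 + -v 1 + v 3 = 0 then
      (algebraMap F k) p * (algebraMap F k) q * ((algebraMap F k) q + (algebraMap F k) ep) *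
        ((ξ 0)⁻¹ * (ξ 1)⁻¹ * ξ 3) else 0) = 0 := by
      linear_combination h7
    exact (mul_eq_zero.1 h8).resolve_left h20
  rw [h6] at e0
  have h9 : ξ 1 ^ 2 - ξ 0 ^ 2 = 0 := by
    have h10 : (algebraMap F k) p * (algebraMap F k) q * ((algebraMap F k) p + (algebraMap F k) ep) *
        ((ξ 0)⁻¹ * (ξ 1)⁻¹ * (ξ 2)⁻¹) * (ξ 1 ^ 2 - ξ 0 ^ 2) = 0 := by
      have h11 : (ξ 0)⁻¹ * (ξ 1)⁻¹ * (ξ 2)⁻¹ * (ξ 1 ^ 2 - ξ 0 ^ 2) =
          (ξ 0)⁻¹ * ξ 1 * (ξ 2)⁻¹ - ξ 0 * (ξ 1)⁻¹ * (ξ 2)⁻¹ := by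
        field_simp
      rw [mul_assoc, h11]
      linear_combination e0
    refine (mul_eq_zero.1 h10).resolve_left ?_
    exact mul_ne_zero (mul_ne_zero (mul_ne_zero hp hq) hph)
      (mul_ne_zero (mul_ne_zero (inv_ne_zero x0) (inv_ne_zero x1)) (inv_ne_zero x2))
  have h12 : ξ 1 = ξ 0 := by
    have h13 : (ξ 1 - ξ 0) * (ξ 0 + ξ 1) = 0 := by linear_combination h9
    exact sub_eq_zero.1 ((mul_eq_zero.1 h13).resolve_right hr')
  rw [h12] at hr
  simp only [map_mul, map_add, map_ofNat] at hr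
  have h14 : 2 * ((algebraMap F k) p + (algebraMap F k) ep) * (ξ 0 * ξ 0) = 0 := by
    linear_combination hr
  exact mul_ne_zero (mul_ne_zero h20 hph) (mul_ne_zero x0 x0) h14

end Pool.Agent.Helper1.FN
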