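import Pool.Agent.Helper61.FN.GoalsD
import Pool.Agent.Helper8.DH.F_RIC

/-!
# Project FN (MP_06d934_gt): packet FN-SCC
-/

set_option autoImplicit false

namespace Pool.Agent.Helper1.FN

open Finset Pool.Agent.Helper61.FN Pool.Agent.Helper58.DH

theorem ric_smul (d : Fin 6 → ℝ) (A : Fin 6 → Fin 6 → Fin 6 → ℝ) (x : Fin 6 → ℝ) (t : ℝ)
    (ht : t ≠ 0) (c : Fin 6) : ric d A (t • x) c = ric d A x c / t := by
  unfold ric
  simp only [Pi.smul_apply, smul_eq_mul]
  rw [add_div, mul_div_assoc, Finset.sum_div]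
  have h1 : ∀ a b e : ℝ, t * a / (t * b * (t * e)) = a / (b * e) / t := by
    intro a b e
    field_simp
  congr 1
  · rw [mul_left_comm, mul_comm t, ← div_div]
  · congr 1
    refine Finset.sum_congr rfl fun i _ ↦ ?_
    rw [Finset.sum_div]
    refine Finset.sum_congr rfl fun j _ ↦ ?_
    rw [h1, h1, h1]
    ring

theorem cs_le (a b c : ℝ) (ha : 0 < a) (hb : 0 < b) (hac : a ≤ c) (hbc : b ≤ c) :
    cs a b c ≤ 1 / 2 := by
  unfold cs
  rw [div_le_div_iff₀ (by positivity) (by norm_num)]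
  rcases le_total a b with h | h
  · nlinarith [mul_nonneg ha.le (sub_nonneg.2 h), mul_nonneg (sub_nonneg.2 hbc) (add_pos (ha) hb).le, mul_self_nonneg (c - b)]
  · nlinarith [mul_nonneg hb.le (sub_nonneg.2 h), mul_nonneg (sub_nonneg.2 hac) (add_pos (ha) hb).le, mul_self_nonneg (c - a)]

theorem goalSCC : G_SCC := by
  intro p q m ep hP w c₀ hw hr
  have hp : (0 : ℝ) < p := by have := hP.p1; linarith
  have hq : (0 : ℝ) < q := by have := hP.q1; linarith
  have hm : (0 : ℝ) < m := hP.mu0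
  have hK : (0 : ℝ) < 2 * p + 2 * q + m + 2 * ep := by
    have := hP.ph0
    have := hP.ch0
    linarith
  obtain ⟨r0, r1, r2, r3, r4, r5⟩ :=
    Pool.Agent.Helper8.DH.f_ric ep p q m hp hq hm hP.ph0 hP.ch0 hK w hw
  simp only [hr] at r0 r1 r2 r3 r4 r5
  have hc : 0 < c₀ := by
    set K : ℝ := 2 * p + 2 * q + m + 2 * ep with hKd
    have hA : 0 < (p : ℝ) / K + ep / K := by rw [← add_div]; exact div_pos hP.ph0 hK
    have hB : 0 < (q : ℝ) / K + ep / K := by rw [← add_div]; exact div_pos hP.ch0 hK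
    have hC : 0 < (m : ℝ) / K := div_pos hm hK
    have hPk : 0 < (p : ℝ) / K := div_pos hp hK
    have hQk : 0 < (q : ℝ) / K := div_pos hq hK
    have hS : ((p : ℝ) / K + ep / K) + ((q : ℝ) / K + ep / K) + p / K + q / K + m / K = 1 := by
      have h1 : ((p : ℝ) / K + ep / K) + ((q : ℝ) / K + ep / K) + p / K + q / K + m / K = K / K := by
        rw [hKd]
        ring
      rw [h1, div_self hK.ne']
    have key : ∀ y R : ℝ, 0 < y → 2 * y * c₀ = R → 0 < R → 0 < c₀ := by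
      intro y R hy h1 h2
      rw [← h1] at h2
      exact (mul_pos_iff_of_pos_left (by positivity)).1 h2
    have cl : ∀ a x y z : ℝ, 0 < a → 0 < x → 0 < y → x ≤ z → y ≤ z → a * cs x y z ≤ a * (1 / 2) :=
      fun a x y z h1 h2 h3 h4 h5 ↦ mul_le_mul_of_nonneg_left (cs_le x y z h2 h3 h4 h5) h1.le
    obtain ⟨e, he⟩ := Finite.exists_max w
    fin_cases e
    · have k1 := cl _ _ _ _ hA (hw 1) (hw 2) (he 1) (he 2)
      have k2 := cl _ _ _ _ hB (hw 1) (hw 3) (he 1) (he 3)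
      have k3 := cl _ _ _ _ hC (hw 4) (hw 5) (he 4) (he 5)
      refine key _ _ (hw 0) r0 ?_
      simp only [Fin.zero_eta] at k1 k2 k3
      linarith
    · have k1 := cl _ _ _ _ hA (hw 0) (hw 2) (he 0) (he 2)
      have k2 := cl _ _ _ _ hB (hw 0) (hw 3) (he 0) (he 3)
      have k3 := cl _ _ _ _ hC (hw 4) (hw 5) (he 4) (he 5)
      refine key _ _ (hw 1) r1 ?_
      simp only [Fin.mk_one] at k1 k2 k3
      linarith
    · have k1 := cl _ _ _ _ (mul_pos two_pos hQk) (hw 0) (hw 1) (he 0) (he 1)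
      have k2 := cl _ _ _ _ hC (hw 4) (hw 4) (he 4) (he 4)
      refine key _ _ (hw 2) r2 ?_
      simp only [Fin.reduceFinMk] at k1 k2
      linarith
    · have k1 := cl _ _ _ _ (mul_pos two_pos hPk) (hw 0) (hw 1) (he 0) (he 1)
      have k2 := cl _ _ _ _ hC (hw 5) (hw 5) (he 5) (he 5)
      refine key _ _ (hw 3) r3 ?_
      simp only [Fin.reduceFinMk] at k1 k2
      linarith
    · have k1 := cl _ _ _ _ hA (hw 2) (hw 4) (he 2) (he 4)
      have k2 := cl _ _ _ _ hQk (hw 5) (hw 1) (he 5) (he 1)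
      have k3 := cl _ _ _ _ hQk (hw 5) (hw 0) (he 5) (he 0)
      refine key _ _ (hw 4) r4 ?_
      simp only [Fin.reduceFinMk] at k1 k2 k3
      linarith
    · have k1 := cl _ _ _ _ hB (hw 3) (hw 5) (he 3) (he 5)
      have k2 := cl _ _ _ _ hPk (hw 4) (hw 1) (he 4) (he 1)
      have k3 := cl _ _ _ _ hPk (hw 4) (hw 0) (he 4) (he 0)
      refine key _ _ (hw 5) r5 ?_
      simp only [Fin.reduceFinMk] at k1 k2 k3
      linarith
  refine ⟨hc, fun c ↦ ?_⟩
  rw [ric_smul _ _ _ _ (by positivity), hr, div_eq_div_iff (by positivity) (by norm_num)]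
  ring

end Pool.Agent.Helper1.FN
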